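import Pool.Agent.Work.MP_10bde7_an.Holo

set_option autoImplicit false

open MeasureTheory Set Filter Topology Metric

namespace Pool.Agent.Work.MP_10bde7_an

lemma exists_half_log (f : ℂ → ℂ) (hf : DifferentiableOn ℂ f (ball (0:ℂ) 1))
    (h0 : ∀ z ∈ ball (0:ℂ) 1, f z ≠ 0) :
    ∃ ζ : ℂ → ℂ, DifferentiableOn ℂ ζ (ball (0:ℂ) 1) ∧
      ∀ z ∈ ball (0:ℂ) 1, f z = Complex.exp (2 * ζ z) := by
  have h1 : DifferentiableOn ℂ (fun z => deriv f z / f z) (ball (0:ℂ) 1) :=
    (hf.deriv isOpen_ball).div hf h0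
  have h2 : Complex.IsExactOn (fun z => deriv f z / f z) (ball (0:ℂ) 1) := h1.isExactOn_ball
  obtain ⟨g, hg0, hg⟩ := h2.with_val_at 0 (Complex.log (f 0))
  have hmem0 : (0:ℂ) ∈ ball (0:ℂ) 1 := mem_ball_self one_pos
  have hgd : DifferentiableOn ℂ g (ball (0:ℂ) 1) :=
    fun z hz => (hg z hz).differentiableAt.differentiableWithinAt
  have hconst : ∀ z ∈ ball (0:ℂ) 1, f z * Complex.exp (- g z) = f 0 * Complex.exp (- g 0) := by
    intro z hz
    have hd : DifferentiableOn ℂ (fun z => f z * Complex.exp (- g z)) (ball (0:ℂ) 1) :=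
      hf.mul (hgd.neg.cexp)
    have hder : ∀ x ∈ ball (0:ℂ) 1, deriv (fun z => f z * Complex.exp (- g z)) x = 0 := by
      intro x hx
      have hfx : HasDerivAt f (deriv f x) x :=
        (hf.differentiableAt (isOpen_ball.mem_nhds hx)).hasDerivAt
      have hgx := (hg x hx).neg.cexp
      have := hfx.mul hgx
      have h3 := this.deriv
      have e : deriv (fun z => f z * Complex.exp (- g z)) x =
          deriv (f * fun x => Complex.exp ((-g) x)) x := rfl
      rw [e, h3]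
      have := h0 x hx
      simp only [Pi.neg_apply]
      field_simp
      ring
    exact (isOpen_ball).is_const_of_deriv_eq_zero
      (convex_ball (0:ℂ) 1).isPreconnected hd hder hz hmem0
  refine ⟨fun z => g z / 2, hgd.div_const 2, fun z hz => ?_⟩
  have h3 := hconst z hz
  rw [hg0, Complex.exp_neg (Complex.log (f 0)), Complex.exp_log (h0 0 hmem0),
    mul_inv_cancel₀ (h0 0 hmem0), Complex.exp_neg] at h3
  have h4 := Complex.exp_ne_zero (g z)
  have h5 : 2 * (g z / 2) = g z := by ring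
  simp only
  rw [h5]
  field_simp at h3
  exact h3

theorem main (f : ℂ → ℂ) (hf : DifferentiableOn ℂ f (ball (0:ℂ) 1))
    (hinjf : InjOn f (ball (0:ℂ) 1)) (h0 : ∀ z ∈ ball (0:ℂ) 1, f z ≠ 0) :
      ∃ B F : ℂ → ℂ,
        DifferentiableOn ℂ B (Metric.ball (0:ℂ) 1) ∧
        DifferentiableOn ℂ F (Metric.ball (0:ℂ) 1) ∧
        (∃ M : ℝ, ∀ z ∈ Metric.ball (0:ℂ) 1, ‖B z‖ ≤ M) ∧
        (∃ M : ℝ, ∀ z ∈ Metric.ball (0:ℂ) 1, B z ≠ 0 ∧ ‖(B z)⁻¹‖ ≤ M) ∧
        (∀ z ∈ Metric.ball (0:ℂ) 1, 0 < (F z).re) ∧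
        (∀ z ∈ Metric.ball (0:ℂ) 1, f z = B z * F z ^ 2) := by
  obtain ⟨ζ, hζ, hfζ⟩ := exists_half_log f hf h0
  have hζinj : InjOn ζ (ball (0:ℂ) 1) := by
    intro p hp q hq h
    apply hinjf hp hq
    rw [hfζ p hp, hfζ q hq, h]
  have han : AnalyticOnNhd ℂ ζ (ball (0:ℂ) 1) := hζ.analyticOnNhd isOpen_ball
  have hpre : IsPreconnected (ball (0:ℂ) 1) := (convex_ball (0:ℂ) 1).isPreconnected
  have hmem0 : (0:ℂ) ∈ ball (0:ℂ) 1 := mem_ball_self one_pos
  set Ω : Set ℂ := ζ '' ball (0:ℂ) 1 with hΩ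
  have hΩo : IsOpen Ω := by
    rcases han.is_constant_or_isOpen hpre with ⟨w, hw⟩ | h
    · exfalso
      have hhalf : (1/2 : ℂ) ∈ ball (0:ℂ) 1 := by
        rw [mem_ball_zero_iff]; norm_num
      have := hζinj hmem0 hhalf (by rw [hw _ hmem0, hw _ hhalf])
      norm_num at this
    · exact h _ Subset.rfl isOpen_ball
  have hinj : ∀ w ∈ Ω, ∀ k : ℤ, (w + k * Real.pi * Complex.I) ∈ Ω → k = 0 := by
    rintro w ⟨p, hp, rfl⟩ k ⟨q, hq, hqe⟩
    have h1 : f q = f p := by
      rw [hfζ q hq, hfζ p hp, hqe]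
      have : 2 * (ζ p + k * Real.pi * Complex.I) = 2 * ζ p + k * (2 * Real.pi * Complex.I) := by
        ring
      rw [this, Complex.exp_add, Complex.exp_int_mul_two_pi_mul_I, mul_one]
    have h2 : q = p := hinjf hq hp h1
    rw [h2] at hqe
    have h3 : (k : ℂ) * Real.pi * Complex.I = 0 := by linear_combination -hqe
    have hpi : (Real.pi : ℂ) ≠ 0 := by exact_mod_cast Real.pi_ne_zero
    have h4 : (k : ℂ) = 0 := by
      rcases mul_eq_zero.mp h3 with h | h
      · rcases mul_eq_zero.mp h with h | h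
        · exact h
        · exact absurd h hpi
      · exact absurd h Complex.I_ne_zero
    exact_mod_cast h4
  have hH := holo Ω hΩo hinj
  set H : ℂ → ℂ := fun z => starRingEnd ℂ z - T Ω z with hHdef
  have hmaps : MapsTo ζ (ball (0:ℂ) 1) Ω := mapsTo_image _ _
  have hHζ : DifferentiableOn ℂ (fun p => H (ζ p)) (ball (0:ℂ) 1) := hH.comp hζ hmaps
  set Ψ : ℂ → ℂ := fun p => (ζ p + H (ζ p)) / 2 with hΨ
  have hΨd : DifferentiableOn ℂ Ψ (ball (0:ℂ) 1) := (hζ.add hHζ).div_const 2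
  set C : ℝ := Cs.toReal with hC
  have hT : ∀ z, |(T Ω z).re| ≤ C := fun z =>
    (Complex.abs_re_le_norm _).trans (T_norm_bound Ω hΩo.measurableSet hinj z)
  have hTim : ∀ z, |(T Ω z).im| ≤ Real.pi := fun z => T_im_bound Ω hΩo.measurableSet hinj z
  have hre : ∀ p, (ζ p - H (ζ p)).re = (T Ω (ζ p)).re := by
    intro p; simp [hHdef]
  have him : ∀ p, (Ψ p).im = - (T Ω (ζ p)).im / 2 := by
    intro p
    have : Ψ p = ((1/2 : ℝ) : ℂ) * (ζ p + H (ζ p)) := by
      simp only [hΨ]; push_cast; ring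
    rw [this, Complex.im_ofReal_mul]
    simp [hHdef]
    ring
  have hsplit : ∀ p, 2 * ζ p = (ζ p - H (ζ p)) + 2 * Ψ p := by
    intro p; simp only [hΨ]; ring
  have hanΨ : AnalyticOnNhd ℂ Ψ (ball (0:ℂ) 1) := hΨd.analyticOnNhd isOpen_ball
  rcases hanΨ.is_constant_or_isOpen hpre with ⟨c, hc⟩ | hopen
  · refine ⟨f, fun _ => 1, hf, differentiableOn_const _, ⟨Real.exp (C + 2 * c.re), ?_⟩,
      ⟨Real.exp (C - 2 * c.re), ?_⟩, ?_, ?_⟩
    · intro z hz
      rw [hfζ z hz, Complex.norm_exp, hsplit, Complex.add_re, hre, hc z hz]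
      apply Real.exp_le_exp.mpr
      have := (abs_le.mp (hT (ζ z))).2
      simp
      linarith
    · intro z hz
      refine ⟨h0 z hz, ?_⟩
      rw [hfζ z hz, norm_inv, Complex.norm_exp, ← Real.exp_neg, hsplit, Complex.add_re, hre,
        hc z hz]
      apply Real.exp_le_exp.mpr
      have := (abs_le.mp (hT (ζ z))).1
      simp
      linarith
    · intro z _; simp
    · intro z _; simp
  · have hstrict : ∀ p ∈ ball (0:ℂ) 1, |(Ψ p).im| < Real.pi / 2 := by
      intro p hp
      have hle : ∀ q ∈ ball (0:ℂ) 1, |(Ψ q).im| ≤ Real.pi / 2 := by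
        intro q _
        rw [him, abs_div, abs_neg]
        have := hTim (ζ q)
        rw [abs_of_pos (show (0:ℝ) < 2 by norm_num)]
        linarith
      have ho := hopen _ Subset.rfl isOpen_ball
      obtain ⟨ε, hε, hb⟩ := Metric.isOpen_iff.mp ho (Ψ p) (mem_image_of_mem _ hp)
      rcases le_or_gt 0 (Ψ p).im with hs | hs
      · have hmem : Ψ p + ((ε / 2 : ℝ) : ℂ) * Complex.I ∈ Ψ '' ball (0:ℂ) 1 := by
          apply hb
          rw [mem_ball_iff_norm]
          simp only [add_sub_cancel_left, norm_mul, Complex.norm_I, mul_one, Complex.norm_real]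
          rw [Real.norm_of_nonneg (by linarith)]
          linarith
        obtain ⟨q, hq, hqe⟩ := hmem
        have h1 := hle q hq
        rw [hqe] at h1
        have h2 : (Ψ p + ((ε / 2 : ℝ) : ℂ) * Complex.I).im = (Ψ p).im + ε / 2 := by simp
        rw [h2, abs_of_nonneg (by linarith)] at h1
        rw [abs_of_nonneg hs]
        linarith
      · have hmem : Ψ p - ((ε / 2 : ℝ) : ℂ) * Complex.I ∈ Ψ '' ball (0:ℂ) 1 := by
          apply hb
          rw [mem_ball_iff_norm]
          simp only [sub_sub_cancel_left, norm_neg, norm_mul, Complex.norm_I, mul_one,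
            Complex.norm_real]
          rw [Real.norm_of_nonneg (by linarith)]
          linarith
        obtain ⟨q, hq, hqe⟩ := hmem
        have h1 := hle q hq
        rw [hqe] at h1
        have h2 : (Ψ p - ((ε / 2 : ℝ) : ℂ) * Complex.I).im = (Ψ p).im - ε / 2 := by simp
        rw [h2, abs_of_nonpos (by linarith)] at h1
        rw [abs_of_neg hs]
        linarith
    refine ⟨fun p => Complex.exp (ζ p - H (ζ p)), fun p => Complex.exp (Ψ p),
      (hζ.sub hHζ).cexp, hΨd.cexp, ⟨Real.exp C, ?_⟩, ⟨Real.exp C, ?_⟩, ?_, ?_⟩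
    · intro z _
      simp only
      rw [Complex.norm_exp, hre]
      exact Real.exp_le_exp.mpr (abs_le.mp (hT (ζ z))).2
    · intro z _
      simp only
      refine ⟨Complex.exp_ne_zero _, ?_⟩
      rw [norm_inv, Complex.norm_exp, ← Real.exp_neg, hre]
      apply Real.exp_le_exp.mpr
      have := (abs_le.mp (hT (ζ z))).1
      linarith
    · intro z hz
      simp only
      rw [Complex.exp_re]
      apply mul_pos (Real.exp_pos _)
      have := abs_lt.mp (hstrict z hz)
      exact Real.cos_pos_of_mem_Ioo ⟨this.1, this.2⟩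
    · intro z hz
      simp only
      rw [hfζ z hz, hsplit, Complex.exp_add, ← Complex.exp_nat_mul]
      norm_num

end Pool.Agent.Work.MP_10bde7_an
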