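import Pool.Agent.Work.MP_10bde7_an.Cylinder

set_option autoImplicit false

open MeasureTheory Set Filter Topology
open scoped ENNReal

namespace Pool.Agent.Work.MP_10bde7_an

noncomputable def Cs : ℝ≥0∞ :=
  ∫⁻ y in Ioc (0:ℝ) Real.pi, ENNReal.ofReal (|Real.sin y| ^ (-(1/2) : ℝ))

lemma Cs_lt_top : Cs < ⊤ := by
  have hint : Integrable (fun y : ℝ => (2 / Real.pi) ^ (-(1/2) : ℝ) *
      (y ^ (-(1/2) : ℝ) + (Real.pi - y) ^ (-(1/2) : ℝ))) (volume.restrict (Ioc (0:ℝ) Real.pi)) := by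
    apply Integrable.const_mul
    apply Integrable.add
    · have h := (intervalIntegral.intervalIntegrable_rpow' (a := 0) (b := Real.pi)
        (r := (-(1/2) : ℝ)) (by norm_num))
      exact (intervalIntegrable_iff_integrableOn_Ioc_of_le Real.pi_pos.le).mp h
    · have h := (intervalIntegral.intervalIntegrable_rpow' (a := 0) (b := Real.pi)
        (r := (-(1/2) : ℝ)) (by norm_num))
      have h2 := h.comp_sub_left Real.pi
      simp only [sub_zero, sub_self] at h2
      exact (intervalIntegrable_iff_integrableOn_Ioc_of_le Real.pi_pos.le).mp h2.symm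
  have hlt := hint.lintegral_lt_top
  refine lt_of_le_of_lt ?_ hlt
  unfold Cs
  apply setLIntegral_mono' measurableSet_Ioc
  intro y hy
  apply ENNReal.ofReal_le_ofReal
  have hpi := Real.pi_pos
  have h2pi : 0 < 2 / Real.pi := by positivity
  rcases le_or_gt y (Real.pi / 2) with h | h
  · have h1 := Real.mul_le_sin hy.1.le h
    have h0 : 0 < 2 / Real.pi * y := mul_pos h2pi hy.1
    have h3 : |Real.sin y| ^ (-(1/2) : ℝ) ≤ (2 / Real.pi * y) ^ (-(1/2) : ℝ) := by
      apply Real.rpow_le_rpow_of_nonpos h0 _ (by norm_num)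
      exact h1.trans (le_abs_self _)
    rw [Real.mul_rpow h2pi.le hy.1.le] at h3
    have h4 : 0 ≤ (2 / Real.pi) ^ (-(1/2) : ℝ) * (Real.pi - y) ^ (-(1/2) : ℝ) := by
      apply mul_nonneg
      · exact Real.rpow_nonneg h2pi.le _
      · exact Real.rpow_nonneg (by linarith [hy.2]) _
    linarith [h3, h4]
  · rcases eq_or_lt_of_le hy.2 with h5 | h5
    · rw [h5, Real.sin_pi, abs_zero, Real.zero_rpow (by norm_num)]
      apply mul_nonneg (Real.rpow_nonneg h2pi.le _)
      apply add_nonneg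
      · exact Real.rpow_nonneg hpi.le _
      · exact Real.rpow_nonneg (by linarith) _
    · have h1 := Real.mul_le_sin (x := Real.pi - y) (by linarith) (by linarith)
      rw [Real.sin_pi_sub] at h1
      have h0 : 0 < 2 / Real.pi * (Real.pi - y) := mul_pos h2pi (by linarith)
      have h3 : |Real.sin y| ^ (-(1/2) : ℝ) ≤ (2 / Real.pi * (Real.pi - y)) ^ (-(1/2) : ℝ) := by
        apply Real.rpow_le_rpow_of_nonpos h0 _ (by norm_num)
        exact h1.trans (le_abs_self _)
      rw [Real.mul_rpow h2pi.le (by linarith)] at h3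
      have h4 : 0 ≤ (2 / Real.pi) ^ (-(1/2) : ℝ) * y ^ (-(1/2) : ℝ) := by
        apply mul_nonneg
        · exact Real.rpow_nonneg h2pi.le _
        · exact Real.rpow_nonneg hy.1.le _
      linarith [h3, h4]

lemma abs_sin_per (y : ℝ) (k : ℤ) : |Real.sin (y + k * Real.pi)| = |Real.sin y| := by
  rw [Real.sin_add, Real.sin_int_mul_pi, Real.cos_int_mul_pi, mul_zero, add_zero, abs_mul]
  rcases Int.even_or_odd k with h | h
  · rw [h.neg_one_zpow]; simp
  · rw [h.neg_one_zpow]; simp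

lemma measurable_sinpow : Measurable (fun y : ℝ => ENNReal.ofReal (|Real.sin y| ^ (-(1/2) : ℝ))) := by
  have : Measurable (fun y : ℝ => |Real.sin y| ^ (-(1/2) : ℝ)) := by
    have h1 : Measurable (fun y : ℝ => |Real.sin y|) := Real.measurable_sin.abs
    exact h1.pow_const _
  exact this.ennreal_ofReal

lemma sin_shift (c : ℝ) :
    ∫⁻ y in Ioc (0:ℝ) Real.pi, ENNReal.ofReal (|Real.sin (c - y)| ^ (-(1/2) : ℝ)) ≤ Cs := by
  have h1 : ∫⁻ y in Ioc (0:ℝ) Real.pi, ENNReal.ofReal (|Real.sin (c - y)| ^ (-(1/2) : ℝ)) =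
      ∫⁻ t in {t : ℝ | c - t ∈ Ioc (0:ℝ) Real.pi}, ENNReal.ofReal (|Real.sin t| ^ (-(1/2) : ℝ)) := by
    have hms : MeasurableSet {t : ℝ | c - t ∈ Ioc (0:ℝ) Real.pi} := by
      have : Measurable (fun t : ℝ => c - t) := by fun_prop
      exact this measurableSet_Ioc
    rw [← lintegral_indicator measurableSet_Ioc, ← lintegral_indicator hms]
    have h2 := lintegral_sub_left_eq_self (μ := (volume : Measure ℝ))
      (fun t : ℝ => (Ioc (0:ℝ) Real.pi).indicator
        (fun y => ENNReal.ofReal (|Real.sin (c - y)| ^ (-(1/2) : ℝ))) t) c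
    rw [← h2]
    congr 1
    ext t
    by_cases ht : c - t ∈ Ioc (0:ℝ) Real.pi
    · rw [indicator_of_mem ht, indicator_of_mem (show t ∈ {t : ℝ | c - t ∈ Ioc (0:ℝ) Real.pi} from ht)]
      simp
    · rw [indicator_of_notMem ht,
        indicator_of_notMem (show t ∉ {t : ℝ | c - t ∈ Ioc (0:ℝ) Real.pi} from ht)]
  rw [h1]
  unfold Cs
  apply lint_packing
  · have : Measurable (fun t : ℝ => c - t) := by fun_prop
    exact this measurableSet_Ioc
  · intro y hy k hk
    have hy' : 0 < c - y ∧ c - y ≤ Real.pi := hy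
    have hk' : 0 < c - (y + k * Real.pi) ∧ c - (y + k * Real.pi) ≤ Real.pi := hk
    have hpi := Real.pi_pos
    have h3 : (k : ℝ) < 1 := by
      by_contra hcon
      push Not at hcon
      nlinarith [mul_le_mul_of_nonneg_right hcon hpi.le]
    have h4 : (-1 : ℝ) < k := by
      by_contra hcon
      push Not at hcon
      nlinarith [mul_le_mul_of_nonneg_right hcon hpi.le]
    have h5 : k < 1 := by exact_mod_cast h3
    have h6 : -1 < k := by exact_mod_cast h4
    omega
  · exact measurable_sinpow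
  · intro y k
    simp only [abs_sin_per]

lemma norm_bound (Ω : Set ℂ) (hΩ : MeasurableSet Ω)
    (hinj : ∀ w ∈ Ω, ∀ k : ℤ, (w + k * Real.pi * Complex.I) ∈ Ω → k = 0) (z : ℂ) :
    ∫⁻ w in Ω, ENNReal.ofReal ‖K (z - w)‖ ≤ ENNReal.ofReal Real.pi * Cs := by
  have hm : Measurable (fun u : ℂ => ENNReal.ofReal ‖K u‖) :=
    measurable_K.norm.ennreal_ofReal
  refine (packing Ω hΩ hinj (fun u => ENNReal.ofReal ‖K u‖) hm
    (fun u k => by rw [norm_K_per]) z).trans ?_
  have hae : ∀ᵐ y : ℝ ∂(volume.restrict (Ioc (0:ℝ) Real.pi)), Real.sin (z.im - y) ≠ 0 := by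
    apply ae_restrict_of_ae
    have hc : (range (fun k : ℤ => z.im - k * Real.pi)).Countable := countable_range _
    filter_upwards [hc.ae_notMem volume] with y hy hsin
    apply hy
    rw [Real.sin_eq_zero_iff] at hsin
    obtain ⟨k, hk⟩ := hsin
    exact ⟨k, by simp only; linarith⟩
  calc ∫⁻ y in Ioc (0:ℝ) Real.pi, ∫⁻ x : ℝ,
        ENNReal.ofReal ‖K (x + ((z.im - y : ℝ) : ℂ) * Complex.I)‖
      ≤ ∫⁻ y in Ioc (0:ℝ) Real.pi, ENNReal.ofReal Real.pi *
          ENNReal.ofReal (|Real.sin (z.im - y)| ^ (-(1/2) : ℝ)) := by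
        apply lintegral_mono_ae
        filter_upwards [hae] with y hy
        exact lint_norm_x _ hy
    _ = ENNReal.ofReal Real.pi * ∫⁻ y in Ioc (0:ℝ) Real.pi,
          ENNReal.ofReal (|Real.sin (z.im - y)| ^ (-(1/2) : ℝ)) := by
        rw [lintegral_const_mul]
        exact measurable_sinpow.comp (measurable_const.sub measurable_id)
    _ ≤ ENNReal.ofReal Real.pi * Cs := by
        gcongr
        exact sin_shift _

noncomputable def T (Ω : Set ℂ) (z : ℂ) : ℂ := (Real.pi : ℂ)⁻¹ * ∫ w in Ω, K (z - w)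

lemma integrable_K (Ω : Set ℂ) (hΩ : MeasurableSet Ω)
    (hinj : ∀ w ∈ Ω, ∀ k : ℤ, (w + k * Real.pi * Complex.I) ∈ Ω → k = 0) (z : ℂ) :
    Integrable (fun w => K (z - w)) (volume.restrict Ω) := by
  refine ⟨?_, ?_⟩
  · apply Measurable.aestronglyMeasurable
    exact measurable_K.comp (measurable_const.sub measurable_id)
  · rw [hasFiniteIntegral_iff_norm]
    refine lt_of_le_of_lt (norm_bound Ω hΩ hinj z) ?_
    exact ENNReal.mul_lt_top ENNReal.ofReal_lt_top Cs_lt_top

lemma T_norm_bound (Ω : Set ℂ) (hΩ : MeasurableSet Ω)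
    (hinj : ∀ w ∈ Ω, ∀ k : ℤ, (w + k * Real.pi * Complex.I) ∈ Ω → k = 0) (z : ℂ) :
    ‖T Ω z‖ ≤ Cs.toReal := by
  unfold T
  rw [norm_mul, norm_inv, Complex.norm_real, Real.norm_of_nonneg Real.pi_pos.le]
  have h1 : ‖∫ w in Ω, K (z - w)‖ ≤ ∫ w in Ω, ‖K (z - w)‖ := norm_integral_le_integral_norm _
  have h2 : ∫ w in Ω, ‖K (z - w)‖ = (∫⁻ w in Ω, ENNReal.ofReal ‖K (z - w)‖).toReal := by
    rw [integral_eq_lintegral_of_nonneg_ae (Eventually.of_forall fun w => norm_nonneg _)
      (integrable_K Ω hΩ hinj z).norm.aestronglyMeasurable]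
  have h3 : (∫⁻ w in Ω, ENNReal.ofReal ‖K (z - w)‖).toReal ≤ Real.pi * Cs.toReal := by
    have h4 := ENNReal.toReal_mono
      (ENNReal.mul_lt_top ENNReal.ofReal_lt_top Cs_lt_top).ne (norm_bound Ω hΩ hinj z)
    rw [ENNReal.toReal_mul, ENNReal.toReal_ofReal Real.pi_pos.le] at h4
    exact h4
  rw [inv_mul_le_iff₀ Real.pi_pos]
  linarith

lemma T_im_bound (Ω : Set ℂ) (hΩ : MeasurableSet Ω)
    (hinj : ∀ w ∈ Ω, ∀ k : ℤ, (w + k * Real.pi * Complex.I) ∈ Ω → k = 0) (z : ℂ) :
    |(T Ω z).im| ≤ Real.pi := by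
  have e : (T Ω z).im = Real.pi⁻¹ * ∫ w in Ω, (K (z - w)).im := by
    unfold T
    rw [← Complex.ofReal_inv, Complex.im_ofReal_mul]
    congr 1
    have := (integral_im (𝕜 := ℂ) (integrable_K Ω hΩ hinj z))
    simpa using this.symm
  rw [e, abs_mul, abs_of_pos (inv_pos.mpr Real.pi_pos), inv_mul_le_iff₀ Real.pi_pos]
  have h1 : |∫ w in Ω, (K (z - w)).im| ≤ ∫ w in Ω, |(K (z - w)).im| := abs_integral_le_integral_abs
  have h2 : ∫ w in Ω, |(K (z - w)).im| = (∫⁻ w in Ω, ENNReal.ofReal |(K (z - w)).im|).toReal := by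
    rw [integral_eq_lintegral_of_nonneg_ae (Eventually.of_forall fun w => abs_nonneg _)]
    exact (((Complex.measurable_im.comp measurable_K).comp
      (measurable_const.sub measurable_id)).abs).aestronglyMeasurable
  have h3 := ENNReal.toReal_mono ENNReal.ofReal_ne_top (im_bound Ω hΩ hinj z)
  rw [ENNReal.toReal_ofReal (by positivity)] at h3
  calc _ ≤ _ := h1
    _ ≤ Real.pi ^ 2 := by rw [h2]; exact h3
    _ = Real.pi * Real.pi := sq _

end Pool.Agent.Work.MP_10bde7_an
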