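import Mathlib

set_option autoImplicit false

open MeasureTheory Set Filter Topology Metric
open scoped ENNReal

namespace Pool.Agent.Work.MP_10bde7_an

lemma integrable_polar (F : ℂ → ℂ) (hm : Measurable F) (hF : Integrable F) :
    Integrable (fun p : ℝ × ℝ => p.1 • F (Complex.polarCoord.symm p))
      (volume.restrict polarCoord.target) := by
  have hms : Measurable (fun p : ℝ × ℝ => Complex.polarCoord.symm p) := by
    have e : (fun p : ℝ × ℝ => Complex.polarCoord.symm p) =
        fun p : ℝ × ℝ => (p.1 : ℂ) * (Real.cos p.2 + Real.sin p.2 * Complex.I) := by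
      ext p; rw [Complex.polarCoord_symm_apply]
    rw [e]
    fun_prop
  refine ⟨?_, ?_⟩
  · apply Measurable.aestronglyMeasurable
    exact measurable_fst.smul (hm.comp hms)
  · unfold HasFiniteIntegral
    have h1 := Complex.lintegral_comp_polarCoord_symm (fun w => ‖F w‖ₑ)
    have h2 : ∫⁻ p in polarCoord.target, ‖p.1 • F (Complex.polarCoord.symm p)‖ₑ =
        ∫⁻ p in polarCoord.target, ENNReal.ofReal p.1 • ‖F (Complex.polarCoord.symm p)‖ₑ := by
      apply setLIntegral_congr_fun polarCoord.open_target.measurableSet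
      intro p hp
      simp only
      rw [enorm_smul, smul_eq_mul]
      congr 1
      have : 0 < p.1 := hp.1
      rw [Real.enorm_of_nonneg this.le]
    rw [h2, h1]
    exact hF.2

lemma theta_integral (ρ : ℝ) (f : ℂ → ℂ) :
    ∫ θ in Ioo (-Real.pi) Real.pi, f (circleMap 0 ρ θ) =
      (2 * Real.pi : ℝ) • Real.circleAverage f 0 ρ := by
  have hpi := Real.pi_pos
  rw [← integral_Ioc_eq_integral_Ioo, ← intervalIntegral.integral_of_le (by linarith)]
  have hper : Function.Periodic (fun θ => f (circleMap 0 ρ θ)) (2 * Real.pi) := by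
    intro θ
    simp only
    rw [periodic_circleMap]
  have h := hper.intervalIntegral_add_eq (-Real.pi) 0
  rw [show -Real.pi + 2 * Real.pi = Real.pi by ring, zero_add] at h
  rw [h, Real.circleAverage_def, smul_smul, mul_inv_cancel₀ (by positivity), one_smul]

lemma average_out (v : ℂ) (ρ : ℝ) (hρ : 0 < ρ) (hv : ρ < ‖v‖) :
    Real.circleAverage (fun w => (v - w)⁻¹) 0 ρ = v⁻¹ := by
  have hd : DiffContOnCl ℂ (fun w => (v - w)⁻¹) (ball 0 |ρ|) := by
    apply DifferentiableOn.diffContOnCl
    rw [abs_of_pos hρ, closure_ball _ hρ.ne']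
    intro w hw
    rw [mem_closedBall_zero_iff] at hw
    apply DifferentiableAt.differentiableWithinAt
    apply DifferentiableAt.inv
    · fun_prop
    · intro h0
      have : v = w := by linear_combination h0
      rw [this] at hv
      linarith
  rw [hd.circleAverage]
  simp

lemma average_in (v : ℂ) (ρ : ℝ) (hρ : 0 < ρ) (hv : ‖v‖ < ρ) :
    Real.circleAverage (fun w => (v - w)⁻¹) 0 ρ = 0 := by
  have hd : DiffContOnCl ℂ (fun w => w * (starRingEnd ℂ v * w - (ρ : ℂ) ^ 2)⁻¹) (ball 0 |ρ|) := by
    apply DifferentiableOn.diffContOnCl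
    rw [abs_of_pos hρ, closure_ball _ hρ.ne']
    intro w hw
    rw [mem_closedBall_zero_iff] at hw
    apply DifferentiableAt.differentiableWithinAt
    apply DifferentiableAt.mul (by fun_prop)
    apply DifferentiableAt.inv
    · fun_prop
    · intro h0
      have h1 : starRingEnd ℂ v * w = (ρ : ℂ) ^ 2 := by linear_combination h0
      have h2 : ‖v‖ * ‖w‖ = ρ ^ 2 := by
        have := congrArg norm h1
        rw [norm_mul, norm_pow, RCLike.norm_conj, Complex.norm_real, Real.norm_of_nonneg hρ.le] at this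
        exact this
      nlinarith [norm_nonneg v, norm_nonneg w]
  have h1 := hd.circleAverage
  simp only [mul_zero, zero_sub, zero_mul] at h1
  have h2 : Real.circleAverage (fun w => (v - w)⁻¹) 0 ρ =
      starRingEnd ℂ (Real.circleAverage (fun w => w * (starRingEnd ℂ v * w - (ρ : ℂ) ^ 2)⁻¹) 0 ρ) := by
    rw [Real.circleAverage_def, Real.circleAverage_def]
    rw [Complex.real_smul, Complex.real_smul, map_mul, Complex.conj_ofReal]
    congr 1
    have h2pi : (0:ℝ) ≤ 2 * Real.pi := by positivity
    rw [intervalIntegral.integral_of_le h2pi, intervalIntegral.integral_of_le h2pi, ← integral_conj]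
    congr 1
    ext θ
    set w := circleMap 0 ρ θ with hw
    have hwn : ‖w‖ = ρ := by rw [hw, norm_circleMap_zero, abs_of_pos hρ]
    have hw0 : w ≠ 0 := by
      intro h; rw [h, norm_zero] at hwn; linarith
    have hww : w * starRingEnd ℂ w = (ρ : ℂ) ^ 2 := by
      rw [Complex.mul_conj, Complex.normSq_eq_norm_sq, hwn]; push_cast; ring
    rw [map_mul, map_inv₀, map_sub, map_mul, Complex.conj_conj, map_pow, Complex.conj_ofReal, ← hww]
    have hc0 : starRingEnd ℂ w ≠ 0 := by
      rw [Ne, map_eq_zero]; exact hw0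
    have e : v * starRingEnd ℂ w - w * starRingEnd ℂ w = starRingEnd ℂ w * (v - w) := by ring
    rw [e, mul_inv, ← mul_assoc, mul_inv_cancel₀ hc0, one_mul]
  rw [h2, h1, map_zero]

lemma integrable_inv_ball (v : ℂ) (r : ℝ) :
    IntegrableOn (fun w : ℂ => (v - w)⁻¹) (ball 0 r) := by
  have h1 : IntegrableOn (fun u : ℂ => u⁻¹) (ball 0 (r + ‖v‖)) := by
    apply integrableOn_ball_of_norm_le_rpow (C := 1) (α := 1)
    · rw [Complex.finrank_real_complex]; norm_num
    · apply Eventually.of_forall
      intro x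
      rw [norm_inv, one_mul, Real.rpow_neg_one]
    · exact measurable_inv.aestronglyMeasurable
    · rw [Complex.finrank_real_complex]; norm_num
  have h2 : IntegrableOn (fun u : ℂ => u⁻¹) (ball v r) := by
    apply h1.mono_set
    intro u hu
    rw [mem_ball_zero_iff]
    rw [mem_ball_iff_norm] at hu
    calc ‖u‖ = ‖(u - v) + v‖ := by ring_nf
      _ ≤ ‖u - v‖ + ‖v‖ := norm_add_le _ _
      _ < r + ‖v‖ := by linarith
  rw [← integrable_indicator_iff measurableSet_ball] at h2 ⊢
  have h3 := h2.comp_sub_left v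
  refine h3.congr (Eventually.of_forall fun w => ?_)
  simp only [indicator, mem_ball_iff_norm, sub_zero]
  have e : v - w - v = -w := by ring
  rw [e, norm_neg]

/-- Cauchy transform of a disc -/
lemma cauchy_disc (v : ℂ) (r : ℝ) (hv : ‖v‖ < r) :
    ∫ w in ball (0:ℂ) r, (v - w)⁻¹ = Real.pi * starRingEnd ℂ v := by
  have hr : 0 < r := lt_of_le_of_lt (norm_nonneg _) hv
  set F : ℂ → ℂ := (ball (0:ℂ) r).indicator (fun w => (v - w)⁻¹) with hFdef
  have hFm : Measurable F := by
    apply Measurable.indicator _ measurableSet_ball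
    exact (measurable_const.sub measurable_id).inv
  have hFi : Integrable F := by
    rw [hFdef, integrable_indicator_iff measurableSet_ball]
    exact integrable_inv_ball v r
  have hpol := integrable_polar F hFm hFi
  rw [← integral_indicator measurableSet_ball, ← hFdef, ← Complex.integral_comp_polarCoord_symm F]
  have htarget : polarCoord.target = Ioi (0:ℝ) ×ˢ Ioo (-Real.pi) Real.pi := rfl
  rw [htarget] at hpol ⊢
  rw [Measure.volume_eq_prod] at hpol ⊢
  rw [setIntegral_prod _ hpol]
  have hinner : ∀ ρ ∈ Ioi (0:ℝ), ρ ≠ ‖v‖ →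
      ∫ θ in Ioo (-Real.pi) Real.pi, (ρ, θ).1 • F (Complex.polarCoord.symm (ρ, θ)) =
      (Ioo 0 ‖v‖).indicator (fun ρ : ℝ => (2 * Real.pi * v⁻¹) * (ρ : ℂ)) ρ := by
    intro ρ hρ hne
    have hρ0 : 0 < ρ := hρ
    have e1 : ∀ θ : ℝ, (ρ, θ).1 • F (Complex.polarCoord.symm (ρ, θ)) =
        ρ • F (circleMap 0 ρ θ) := by
      intro θ
      congr 2
      rw [Complex.polarCoord_symm_apply, circleMap, zero_add, Complex.exp_mul_I]
      simp
    simp_rw [e1]
    rw [integral_smul, theta_integral ρ F]
    by_cases h1 : ρ < r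
    · have e2 : Real.circleAverage F 0 ρ = Real.circleAverage (fun w => (v - w)⁻¹) 0 ρ := by
        apply Real.circleAverage_congr_sphere
        intro w hw
        rw [mem_sphere_zero_iff_norm, abs_of_pos hρ0] at hw
        rw [hFdef, indicator_of_mem]
        rw [mem_ball_zero_iff, hw]; exact h1
      rw [e2]
      rcases lt_or_gt_of_ne hne with h2 | h2
      · rw [average_out v ρ hρ0 h2, indicator_of_mem (show ρ ∈ Ioo 0 ‖v‖ from ⟨hρ0, h2⟩)]
        simp only [Complex.real_smul]
        push_cast
        ring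
      · rw [average_in v ρ hρ0 h2, indicator_of_notMem (fun h => by linarith [h.2])]
        simp
    · push Not at h1
      have e2 : Real.circleAverage F 0 ρ = 0 := by
        have : Real.circleAverage F 0 ρ = Real.circleAverage (fun _ => (0:ℂ)) 0 ρ := by
          apply Real.circleAverage_congr_sphere
          intro w hw
          rw [mem_sphere_zero_iff_norm, abs_of_pos hρ0] at hw
          rw [hFdef, indicator_of_notMem]
          rw [mem_ball_zero_iff, hw]; linarith
        rw [this, Real.circleAverage_const]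
      rw [e2, indicator_of_notMem (fun h => by linarith [h.2])]
      simp
  have hae : ∀ᵐ ρ : ℝ ∂(volume.restrict (Ioi (0:ℝ))),
      ∫ θ in Ioo (-Real.pi) Real.pi, (ρ, θ).1 • F (Complex.polarCoord.symm (ρ, θ)) =
      (Ioo 0 ‖v‖).indicator (fun ρ : ℝ => (2 * Real.pi * v⁻¹) * (ρ : ℂ)) ρ := by
    rw [ae_restrict_iff' measurableSet_Ioi]
    filter_upwards [(countable_singleton ‖v‖).ae_notMem volume] with ρ hρ1 hρ2
    exact hinner ρ hρ2 (fun h => hρ1 (by simp [h]))
  rw [integral_congr_ae hae, setIntegral_indicator measurableSet_Ioo]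
  have hint : Ioi (0:ℝ) ∩ Ioo 0 ‖v‖ = Ioo 0 ‖v‖ := by
    ext x; constructor
    · exact fun h => h.2
    · exact fun h => ⟨h.1, h⟩
  rw [hint, integral_const_mul, ← integral_Ioc_eq_integral_Ioo,
    ← intervalIntegral.integral_of_le (norm_nonneg v), intervalIntegral.integral_ofReal, integral_id]
  by_cases hv0 : v = 0
  · simp [hv0]
  · have hvv : v * starRingEnd ℂ v = (‖v‖ : ℂ) ^ 2 := by
      rw [Complex.mul_conj, Complex.normSq_eq_norm_sq]; push_cast; ring
    have : starRingEnd ℂ v = v⁻¹ * (‖v‖ : ℂ) ^ 2 := by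
      rw [← hvv, ← mul_assoc, inv_mul_cancel₀ hv0, one_mul]
    rw [this]
    push_cast
    ring

end Pool.Agent.Work.MP_10bde7_an
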