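import Pool.Agent.Work.MP_10bde7_an.Kernel

set_option autoImplicit false

open MeasureTheory Set Filter Topology
open scoped ENNReal

namespace Pool.Agent.Work.MP_10bde7_an

lemma lintegral_complex (f : ℂ → ℝ≥0∞) (hf : Measurable f) :
    ∫⁻ w, f w = ∫⁻ x : ℝ, ∫⁻ y : ℝ, f (x + y * Complex.I) := by
  have h := (Complex.volume_preserving_equiv_real_prod.symm).lintegral_comp hf
  rw [← h]
  have h2 : Measurable (fun p : ℝ × ℝ => f (p.1 + p.2 * Complex.I)) := by
    apply hf.comp
    fun_prop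
  have h3 := lintegral_prod (μ := (volume : Measure ℝ)) (ν := (volume : Measure ℝ))
    (fun p : ℝ × ℝ => f (p.1 + p.2 * Complex.I)) h2.aemeasurable
  rw [← h3]
  congr 1
  ext p
  congr 1
  rw [Complex.measurableEquivRealProd_symm_apply]
  apply Complex.ext <;> simp

/-- two-dimensional packing -/
lemma packing (Ω : Set ℂ) (hΩ : MeasurableSet Ω)
    (hinj : ∀ w ∈ Ω, ∀ k : ℤ, (w + k * Real.pi * Complex.I) ∈ Ω → k = 0)
    (φ : ℂ → ℝ≥0∞) (hφ : Measurable φ)
    (hper : ∀ u (k : ℤ), φ (u + k * Real.pi * Complex.I) = φ u) (z : ℂ) :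
    ∫⁻ w in Ω, φ (z - w) ≤
      ∫⁻ y in Ioc (0:ℝ) Real.pi, ∫⁻ x : ℝ, φ (x + ((z.im - y : ℝ) : ℂ) * Complex.I) := by
  rw [← lintegral_indicator hΩ]
  have hm : Measurable (Ω.indicator (fun w => φ (z - w))) := by
    apply Measurable.indicator _ hΩ
    exact hφ.comp (measurable_const.sub measurable_id)
  rw [lintegral_complex _ hm]
  have step1 : ∀ x : ℝ, ∫⁻ y : ℝ, Ω.indicator (fun w => φ (z - w)) (x + y * Complex.I) ≤
      ∫⁻ y in Ioc (0:ℝ) Real.pi, φ (z - (x + y * Complex.I)) := by
    intro x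
    set A : Set ℝ := {y : ℝ | ((x : ℂ) + y * Complex.I) ∈ Ω} with hAdef
    have hA : MeasurableSet A := by
      have : Measurable (fun y : ℝ => (x : ℂ) + y * Complex.I) := by fun_prop
      exact this hΩ
    have e : (fun y : ℝ => Ω.indicator (fun w => φ (z - w)) (x + y * Complex.I)) =
        A.indicator (fun y : ℝ => φ (z - (x + y * Complex.I))) := by
      ext y
      by_cases hy : ((x : ℂ) + y * Complex.I) ∈ Ω
      · rw [indicator_of_mem hy, indicator_of_mem (show y ∈ A from hy)]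
      · rw [indicator_of_notMem hy, indicator_of_notMem (show y ∉ A from hy)]
    rw [e, lintegral_indicator hA]
    apply lint_packing A hA
    · intro y hy k hk
      apply hinj _ hy k
      have : ((x : ℂ) + y * Complex.I) + k * Real.pi * Complex.I =
          (x : ℂ) + ((y + k * Real.pi : ℝ) : ℂ) * Complex.I := by
        push_cast; ring
      rw [this]; exact hk
    · apply hφ.comp; fun_prop
    · intro y k
      have : z - ((x : ℂ) + ((y + k * Real.pi : ℝ) : ℂ) * Complex.I) =
          (z - ((x : ℂ) + y * Complex.I)) + ((-k : ℤ) : ℂ) * Real.pi * Complex.I := by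
        push_cast; ring
      rw [this, hper]
  refine (lintegral_mono step1).trans ?_
  rw [lintegral_lintegral_swap]
  · apply lintegral_mono
    intro y
    simp only
    have e1 : ∀ x : ℝ, φ (z - (x + y * Complex.I)) =
        (fun t : ℝ => φ (t + ((z.im - y : ℝ) : ℂ) * Complex.I)) (z.re - x) := by
      intro x
      simp only
      congr 1
      apply Complex.ext <;> simp
    simp_rw [e1]
    rw [lintegral_sub_left_eq_self (fun t : ℝ => φ (t + ((z.im - y : ℝ) : ℂ) * Complex.I)) z.re]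
  · apply Measurable.aemeasurable
    apply hφ.comp
    fun_prop

lemma sinh_add_int_mul_pi (u : ℂ) (k : ℤ) :
    Complex.sinh (u + k * Real.pi * Complex.I) = (-1) ^ k * Complex.sinh u := by
  have h1 : Complex.sinh (u + k * Real.pi * Complex.I) =
      Complex.sinh u * Complex.cos (k * Real.pi) + Complex.cosh u * (Complex.sin (k * Real.pi) * Complex.I) := by
    rw [Complex.sinh_add, Complex.cosh_mul_I, Complex.sinh_mul_I]
  have h2 : Complex.cos (k * Real.pi) = (-1) ^ k := by
    have := congrArg (fun t : ℝ => (t : ℂ)) (Real.cos_int_mul_pi k)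
    push_cast at this
    exact this
  rw [h1, Complex.sin_int_mul_pi, h2]
  ring

lemma K_per (u : ℂ) (k : ℤ) : K (u + k * Real.pi * Complex.I) = (-1) ^ k * K u := by
  unfold K
  rw [sinh_add_int_mul_pi, mul_inv, ← inv_zpow, inv_neg, inv_one]

lemma neg_one_zpow_cases (k : ℤ) : ((-1 : ℂ) ^ k = 1) ∨ ((-1 : ℂ) ^ k = -1) := by
  rcases Int.even_or_odd k with h | h
  · left; exact h.neg_one_zpow
  · right; exact h.neg_one_zpow

lemma abs_K_im_per (u : ℂ) (k : ℤ) : |(K (u + k * Real.pi * Complex.I)).im| = |(K u).im| := by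
  rw [K_per]
  rcases neg_one_zpow_cases k with h | h <;> rw [h] <;> simp

lemma norm_K_per (u : ℂ) (k : ℤ) : ‖K (u + k * Real.pi * Complex.I)‖ = ‖K u‖ := by
  rw [K_per]
  rcases neg_one_zpow_cases k with h | h <;> rw [h] <;> simp

/-- the sharp bound -/
lemma im_bound (Ω : Set ℂ) (hΩ : MeasurableSet Ω)
    (hinj : ∀ w ∈ Ω, ∀ k : ℤ, (w + k * Real.pi * Complex.I) ∈ Ω → k = 0) (z : ℂ) :
    ∫⁻ w in Ω, ENNReal.ofReal |(K (z - w)).im| ≤ ENNReal.ofReal (Real.pi ^ 2) := by
  have hm : Measurable (fun u : ℂ => ENNReal.ofReal |(K u).im|) := by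
    have h1 : Measurable (fun u : ℂ => |(K u).im|) :=
      (Complex.measurable_im.comp measurable_K).abs
    exact h1.ennreal_ofReal
  refine (packing Ω hΩ hinj (fun u => ENNReal.ofReal |(K u).im|) hm
    (fun u k => by rw [abs_K_im_per]) z).trans ?_
  have h1 : ∀ t : ℝ, ∫⁻ x : ℝ, ENNReal.ofReal |(K (x + (t : ℂ) * Complex.I)).im| ≤
      ENNReal.ofReal Real.pi := by
    intro t
    have e : ∀ x : ℝ, |(K (x + (t : ℂ) * Complex.I)).im| =
        Real.cosh x * |Real.sin t| / (Real.sinh x ^ 2 + |Real.sin t| ^ 2) := by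
      intro x
      rw [abs_K_im]
      simp
    simp_rw [e]
    by_cases h0 : Real.sin t = 0
    · simp [h0]
    · exact lint_x _ (abs_pos.mpr h0)
  calc ∫⁻ y in Ioc (0:ℝ) Real.pi, ∫⁻ x : ℝ,
        ENNReal.ofReal |(K (x + ((z.im - y : ℝ) : ℂ) * Complex.I)).im|
      ≤ ∫⁻ y in Ioc (0:ℝ) Real.pi, ENNReal.ofReal Real.pi :=
        lintegral_mono fun y => h1 _
    _ = ENNReal.ofReal (Real.pi ^ 2) := by
        rw [setLIntegral_const, Real.volume_Ioc, sub_zero, sq, ENNReal.ofReal_mul Real.pi_pos.le]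

/-- the x-integral of the norm -/
lemma lint_norm_x (t : ℝ) (h0 : Real.sin t ≠ 0) :
    ∫⁻ x : ℝ, ENNReal.ofReal ‖K (x + (t : ℂ) * Complex.I)‖ ≤
      ENNReal.ofReal Real.pi * ENNReal.ofReal (|Real.sin t| ^ (-(1/2) : ℝ)) := by
  set a := |Real.sin t| with ha
  have ha0 : 0 < a := abs_pos.mpr h0
  set s := a ^ (-(1/2) : ℝ) with hs
  have hs0 : 0 < s := Real.rpow_pos_of_pos ha0 _
  have hsa : s ^ 2 * a = 1 := by
    rw [hs, ← Real.rpow_natCast, ← Real.rpow_mul ha0.le]
    norm_num
    rw [Real.rpow_neg_one]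
    field_simp
  have key : ∀ x : ℝ, ‖K (x + (t : ℂ) * Complex.I)‖ ≤
      (s / 2) * (Real.cosh x * a / (Real.sinh x ^ 2 + a ^ 2)) +
      (s / 2) * (Real.cosh x * 1 / (Real.sinh x ^ 2 + 1 ^ 2)) := by
    intro x
    have hc : 0 < Real.cosh x := Real.cosh_pos x
    have hcs : Real.sinh x ^ 2 + 1 ^ 2 = Real.cosh x ^ 2 := by
      have := Real.cosh_sq x; linarith
    have hK : ‖K (x + (t : ℂ) * Complex.I)‖ ^ 2 = (Real.sinh x ^ 2 + a ^ 2)⁻¹ := by
      rw [norm_K_sq, ha, sq_abs]; simp
    set S := Real.sinh x ^ 2 + a ^ 2 with hS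
    have hS0 : 0 < S := by positivity
    rw [hcs]
    have e2 : Real.cosh x * 1 / Real.cosh x ^ 2 = 1 / Real.cosh x := by field_simp
    rw [e2]
    set N := ‖K (x + (t : ℂ) * Complex.I)‖ with hN
    have hN0 : 0 ≤ N := norm_nonneg _
    -- N = sqrt (1/S); AM-GM
    have e3 : N ^ 2 = (s * (Real.cosh x * a / S)) * (s * (1 / Real.cosh x)) := by
      rw [hK]
      have : s * (Real.cosh x * a / S) * (s * (1 / Real.cosh x)) = (s ^ 2 * a) * S⁻¹ := by
        field_simp
      rw [this, hsa, one_mul]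
    have hp : 0 ≤ s * (Real.cosh x * a / S) := by positivity
    have hq : 0 ≤ s * (1 / Real.cosh x) := by positivity
    nlinarith [sq_nonneg (s * (Real.cosh x * a / S) - s * (1 / Real.cosh x)),
      sq_nonneg (s * (Real.cosh x * a / S) + s * (1 / Real.cosh x)),
      abs_le_of_sq_le_sq (a := N) (b := (s * (Real.cosh x * a / S) + s * (1 / Real.cosh x)) / 2)
        (by nlinarith [sq_nonneg (s * (Real.cosh x * a / S) - s * (1 / Real.cosh x))])
        (by positivity), le_abs_self N]
  have hcont : ∀ b : ℝ, 0 < b → Continuous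
      (fun x : ℝ => Real.cosh x * b / (Real.sinh x ^ 2 + b ^ 2)) := by
    intro b hb
    apply Continuous.div
    · exact Real.continuous_cosh.mul continuous_const
    · exact (Real.continuous_sinh.pow 2).add continuous_const
    · intro x; positivity
  calc ∫⁻ x : ℝ, ENNReal.ofReal ‖K (x + (t : ℂ) * Complex.I)‖
      ≤ ∫⁻ x : ℝ, (ENNReal.ofReal (s / 2) *
          ENNReal.ofReal (Real.cosh x * a / (Real.sinh x ^ 2 + a ^ 2)) +
          ENNReal.ofReal (s / 2) *
          ENNReal.ofReal (Real.cosh x * 1 / (Real.sinh x ^ 2 + 1 ^ 2))) := by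
        apply lintegral_mono
        intro x
        have hc : 0 < Real.cosh x := Real.cosh_pos x
        simp only
        rw [← ENNReal.ofReal_mul (by positivity), ← ENNReal.ofReal_mul (by positivity),
          ← ENNReal.ofReal_add (by positivity) (by positivity)]
        exact ENNReal.ofReal_le_ofReal (key x)
    _ = ENNReal.ofReal (s / 2) *
          (∫⁻ x : ℝ, ENNReal.ofReal (Real.cosh x * a / (Real.sinh x ^ 2 + a ^ 2))) +
          ENNReal.ofReal (s / 2) *
          (∫⁻ x : ℝ, ENNReal.ofReal (Real.cosh x * 1 / (Real.sinh x ^ 2 + 1 ^ 2))) := by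
        rw [lintegral_add_left, lintegral_const_mul, lintegral_const_mul]
        · exact (hcont 1 one_pos).measurable.ennreal_ofReal
        · exact (hcont a ha0).measurable.ennreal_ofReal
        · exact (hcont a ha0).measurable.ennreal_ofReal.const_mul _
    _ ≤ ENNReal.ofReal (s / 2) * ENNReal.ofReal Real.pi +
          ENNReal.ofReal (s / 2) * ENNReal.ofReal Real.pi := by
        gcongr
        · exact lint_x a ha0
        · exact lint_x 1 one_pos
    _ = ENNReal.ofReal Real.pi * ENNReal.ofReal s := by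
        rw [← add_mul, ← ENNReal.ofReal_add (by positivity) (by positivity), add_halves, mul_comm]

end Pool.Agent.Work.MP_10bde7_an
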