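import Pool.Agent.Work.MP_10bde7_an.Bounds
import Pool.Agent.Work.MP_10bde7_an.Cauchy

set_option autoImplicit false

open MeasureTheory Set Filter Topology Metric
open scoped ENNReal

namespace Pool.Agent.Work.MP_10bde7_an

noncomputable def sfun (u : ℂ) : ℂ := dslope Complex.sinh 0 u

noncomputable def k3 (u : ℂ) : ℂ := - dslope sfun 0 u / sfun u

lemma sfun_diff : Differentiable ℂ sfun := by
  have h := (Complex.differentiableOn_dslope (f := Complex.sinh) (c := 0) (s := univ)
    univ_mem).mpr Complex.differentiable_sinh.differentiableOn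
  exact differentiableOn_univ.mp h

lemma dslope_sfun_diff : Differentiable ℂ (dslope sfun 0) := by
  have h := (Complex.differentiableOn_dslope (f := sfun) (c := 0) (s := univ)
    univ_mem).mpr sfun_diff.differentiableOn
  exact differentiableOn_univ.mp h

lemma sfun_zero : sfun 0 = 1 := by
  unfold sfun
  rw [dslope_same]
  simp

lemma sfun_of_ne (u : ℂ) (hu : u ≠ 0) : sfun u = Complex.sinh u / u := by
  unfold sfun
  rw [dslope_of_ne _ hu, slope_def_field]
  simp

lemma sinh_ne_zero (u : ℂ) (hu : u ≠ 0) (h3 : ‖u‖ < 3) : Complex.sinh u ≠ 0 := by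
  intro h
  have h1 := normsq_sinh u
  rw [h, norm_zero] at h1
  have h2 : Real.sinh u.re = 0 := by nlinarith [sq_nonneg (Real.sinh u.re), sq_nonneg (Real.sin u.im)]
  have h4 : Real.sin u.im = 0 := by nlinarith [sq_nonneg (Real.sinh u.re), sq_nonneg (Real.sin u.im)]
  rw [Real.sinh_eq_zero] at h2
  have h5 : |u.im| < 3 := lt_of_le_of_lt (Complex.abs_im_le_norm u) h3
  rw [abs_lt] at h5
  have h6 := Real.pi_gt_three
  have h7 : u.im = 0 := (Real.sin_eq_zero_iff_of_lt_of_lt (by linarith) (by linarith)).mp h4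
  exact hu (Complex.ext h2 h7)

lemma sfun_ne_zero (u : ℂ) (h3 : ‖u‖ < 3) : sfun u ≠ 0 := by
  by_cases hu : u = 0
  · rw [hu, sfun_zero]; exact one_ne_zero
  · rw [sfun_of_ne u hu]
    exact div_ne_zero (sinh_ne_zero u hu h3) hu

lemma k3_diff : DifferentiableOn ℂ k3 (ball 0 3) := by
  intro u hu
  rw [mem_ball_zero_iff] at hu
  apply DifferentiableAt.differentiableWithinAt
  unfold k3
  exact (dslope_sfun_diff u).neg.div (sfun_diff u) (sfun_ne_zero u hu)

lemma K_eq (u : ℂ) (hu : u ≠ 0) (h3 : ‖u‖ < 3) : K u = u⁻¹ + k3 u := by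
  unfold K k3
  have h1 := sfun_ne_zero u h3
  rw [dslope_of_ne _ hu, slope_def_field, sfun_zero, sub_zero]
  have h2 : Complex.sinh u = sfun u * u := by
    rw [sfun_of_ne u hu]; field_simp
  rw [h2]
  field_simp
  ring

lemma norm_sinh_le (u : ℂ) : ‖Complex.sinh u‖ ≤ Real.cosh u.re := by
  apply abs_le_of_sq_le_sq' _ (Real.cosh_pos _).le |>.2
  rw [normsq_sinh, Real.cosh_sq]
  nlinarith [Real.sin_sq_le_one u.im]

lemma norm_cosh_le (u : ℂ) : ‖Complex.cosh u‖ ≤ Real.cosh u.re := by
  apply abs_le_of_sq_le_sq' _ (Real.cosh_pos _).le |>.2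
  have h1 : Complex.cosh u ^ 2 = Complex.sinh u ^ 2 + 1 := Complex.cosh_sq u
  have hre : (Complex.cosh u).re = Real.cosh u.re * Real.cos u.im := by
    conv_lhs => rw [← Complex.re_add_im u]
    rw [Complex.cosh_add, Complex.sinh_mul_I, Complex.cosh_mul_I]
    simp [← Complex.ofReal_sinh, ← Complex.ofReal_cosh, ← Complex.ofReal_sin, ← Complex.ofReal_cos]
  have him : (Complex.cosh u).im = Real.sinh u.re * Real.sin u.im := by
    conv_lhs => rw [← Complex.re_add_im u]
    rw [Complex.cosh_add, Complex.sinh_mul_I, Complex.cosh_mul_I]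
    simp [← Complex.ofReal_sinh, ← Complex.ofReal_cosh, ← Complex.ofReal_sin, ← Complex.ofReal_cos]
  rw [← Complex.normSq_eq_norm_sq, Complex.normSq_apply, hre, him]
  have h2 := Real.cosh_sq u.re
  have h3 := Real.sin_sq_add_cos_sq u.im
  have h4 : Real.cosh u.re * Real.cos u.im * (Real.cosh u.re * Real.cos u.im) +
      Real.sinh u.re * Real.sin u.im * (Real.sinh u.re * Real.sin u.im) =
      Real.cosh u.re ^ 2 - Real.sin u.im ^ 2 := by
    have : Real.sinh u.re ^ 2 = Real.cosh u.re ^ 2 - 1 := by linarith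
    have h5 : Real.cos u.im ^ 2 = 1 - Real.sin u.im ^ 2 := by linarith
    calc _ = Real.cosh u.re ^ 2 * Real.cos u.im ^ 2 + Real.sinh u.re ^ 2 * Real.sin u.im ^ 2 := by ring
      _ = _ := by rw [this, h5]; ring
  rw [h4]
  nlinarith [sq_nonneg (Real.sin u.im)]

lemma lower_sinh (u : ℂ) (δ : ℝ) (hδ : 0 < δ) (hδ1 : δ ≤ 1)
    (hu : ∀ k : ℤ, δ ≤ ‖u - k * Real.pi * Complex.I‖) :
    δ ^ 2 / 5 * Real.cosh u.re ^ 2 ≤ ‖Complex.sinh u‖ ^ 2 := by
  rw [normsq_sinh]
  have hpi := Real.pi_pos
  set k : ℤ := round (u.im / Real.pi) with hk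
  have h1 : |u.im / Real.pi - k| ≤ 1 / 2 := abs_sub_round _
  set t := u.im - k * Real.pi with ht
  have h2 : |t| ≤ Real.pi / 2 := by
    have e : t = Real.pi * (u.im / Real.pi - k) := by rw [ht]; field_simp
    rw [e, abs_mul, abs_of_pos hpi]
    nlinarith
  have h3 : |Real.sin u.im| = |Real.sin t| := by
    have e : u.im = t + k * Real.pi := by rw [ht]; ring
    rw [e, abs_sin_per]
  have h4 : 2 / Real.pi * |t| ≤ |Real.sin t| := Real.mul_abs_le_abs_sin h2
  have h5 : (2 / Real.pi * |t|) ^ 2 ≤ Real.sin u.im ^ 2 := by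
    rw [← sq_abs (Real.sin u.im), h3]
    apply pow_le_pow_left₀ (by positivity) h4
  have h6 : u.re ^ 2 ≤ Real.sinh u.re ^ 2 := by
    rw [← sq_abs, ← sq_abs (Real.sinh u.re)]
    apply pow_le_pow_left₀ (abs_nonneg _)
    rw [Real.abs_sinh]
    exact (Real.self_le_sinh_iff).mpr (abs_nonneg _)
  have h7 : δ ^ 2 ≤ u.re ^ 2 + t ^ 2 := by
    have h8 := hu k
    have h9 : ‖u - k * Real.pi * Complex.I‖ ^ 2 = u.re ^ 2 + t ^ 2 := by
      rw [← Complex.normSq_eq_norm_sq, Complex.normSq_apply, ht]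
      simp
      ring
    rw [← h9]
    apply pow_le_pow_left₀ hδ.le h8
  have h10 : (2 / 5 : ℝ) ≤ (2 / Real.pi) ^ 2 := by
    have := Real.pi_lt_d2
    rw [div_pow, le_div_iff₀ (by positivity)]
    nlinarith
  have h11 : (2 / Real.pi * |t|) ^ 2 = (2 / Real.pi) ^ 2 * t ^ 2 := by
    rw [mul_pow, sq_abs]
  rw [h11] at h5
  rw [Real.cosh_sq]
  have h12 : δ ^ 2 ≤ 1 := by nlinarith
  nlinarith [sq_nonneg t, sq_nonneg (Real.sinh u.re), sq_nonneg u.re,
    mul_le_mul_of_nonneg_right h10 (sq_nonneg t)]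

lemma cosh_shift (a b : ℝ) (hb : |b| ≤ 1 / 2) : Real.cosh a / 2 ≤ Real.cosh (a + b) := by
  rw [Real.cosh_add]
  have h1 : |Real.sinh a| ≤ Real.cosh a := by
    apply abs_le_of_sq_le_sq _ (Real.cosh_pos _).le
    rw [Real.cosh_sq]; linarith
  have h2 : Real.cosh b - |Real.sinh b| = Real.exp (-|b|) := by
    rw [← Real.cosh_abs b, Real.abs_sinh, Real.cosh_sub_sinh]
  have h3 : 1 / 2 ≤ Real.exp (-|b|) := by
    have := Real.add_one_le_exp (-|b|)
    linarith
  have h4 : -(Real.cosh a * |Real.sinh b|) ≤ Real.sinh a * Real.sinh b := by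
    have : |Real.sinh a * Real.sinh b| ≤ Real.cosh a * |Real.sinh b| := by
      rw [abs_mul]
      exact mul_le_mul_of_nonneg_right h1 (abs_nonneg _)
    exact neg_le_of_abs_le this
  nlinarith [Real.cosh_pos a]

lemma hasDerivAt_K (u : ℂ) (hu : Complex.sinh u ≠ 0) :
    HasDerivAt K (- Complex.cosh u / Complex.sinh u ^ 2) u :=
  (Complex.hasDerivAt_sinh u).inv hu

section main
variable (Ω : Set ℂ) (hΩo : IsOpen Ω)
    (hinj : ∀ w ∈ Ω, ∀ k : ℤ, (w + k * Real.pi * Complex.I) ∈ Ω → k = 0)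
    (z₀ : ℂ) (r : ℝ) (hr : 0 < r) (hr1 : r ≤ 1) (hball : ball z₀ r ⊆ Ω)

include hinj hball in
lemma dist_poles (z : ℂ) (hz : z ∈ ball z₀ (r / 2)) (w : ℂ) (hw : w ∈ Ω \ ball z₀ r) (k : ℤ) :
    r / 2 ≤ ‖z - w - k * Real.pi * Complex.I‖ := by
  by_contra hcon
  push Not at hcon
  have h1 : w + k * Real.pi * Complex.I ∈ ball z₀ r := by
    rw [mem_ball_iff_norm] at hz ⊢
    calc ‖w + k * Real.pi * Complex.I - z₀‖ =
        ‖(z - z₀) - (z - w - k * Real.pi * Complex.I)‖ := by ring_nf
      _ ≤ ‖z - z₀‖ + ‖z - w - k * Real.pi * Complex.I‖ := norm_sub_le _ _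
      _ < r / 2 + r / 2 := by linarith
      _ = r := by ring
  have h2 : k = 0 := hinj w hw.1 k (hball h1)
  apply hw.2
  rw [h2] at h1
  simpa using h1

include hΩo hinj hr hr1 hball in
lemma G2_diff : DifferentiableAt ℂ (fun z => ∫ w in Ω \ ball z₀ r, K (z - w)) z₀ := by
  have hms : MeasurableSet (Ω \ ball z₀ r) := hΩo.measurableSet.diff measurableSet_ball
  have key := hasDerivAt_integral_of_dominated_loc_of_deriv_le
    (𝕜 := ℂ) (μ := volume.restrict (Ω \ ball z₀ r)) (F := fun z w => K (z - w))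
    (F' := fun z w => - Complex.cosh (z - w) / Complex.sinh (z - w) ^ 2)
    (x₀ := z₀) (s := ball z₀ (r / 2)) (bound := fun w => (40 / r ^ 2) * ‖K (z₀ - w)‖)
    (ball_mem_nhds z₀ (by linarith)) ?_ ?_ ?_ ?_ ?_ ?_
  · exact key.2.differentiableAt
  · apply Eventually.of_forall
    intro z
    exact (measurable_K.comp (measurable_const.sub measurable_id)).aestronglyMeasurable
  · exact (integrable_K Ω hΩo.measurableSet hinj z₀).mono_measure
      (Measure.restrict_mono sdiff_subset le_rfl)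
  · apply Measurable.aestronglyMeasurable
    have h1 : Measurable (fun w : ℂ => z₀ - w) := measurable_const.sub measurable_id
    exact ((Complex.measurable_cosh.comp h1).neg).div ((Complex.measurable_sinh.comp h1).pow_const 2)
  · rw [ae_restrict_iff' hms]
    apply Eventually.of_forall
    intro w hw z hz
    have h1 := lower_sinh (z - w) (r / 2) (by linarith) (by linarith)
      (dist_poles Ω hinj z₀ r hball z hz w hw)
    have h2 := lower_sinh (z₀ - w) (r / 2) (by linarith) (by linarith)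
      (dist_poles Ω hinj z₀ r hball z₀ (mem_ball_self (by linarith)) w hw)
    have hc1 := Real.cosh_pos (z - w).re
    have hc2 := Real.cosh_pos (z₀ - w).re
    have hs1 : 0 < ‖Complex.sinh (z - w)‖ ^ 2 := lt_of_lt_of_le (by positivity) h1
    have hs2 : 0 < ‖Complex.sinh (z₀ - w)‖ ^ 2 := lt_of_lt_of_le (by positivity) h2
    have hs2' : 0 < ‖Complex.sinh (z₀ - w)‖ := by
      rcases (norm_nonneg (Complex.sinh (z₀ - w))).lt_or_eq with h | h
      · exact h
      · rw [← h] at hs2; norm_num at hs2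
    have h3 : Real.cosh (z₀ - w).re / 2 ≤ Real.cosh (z - w).re := by
      have e : (z - w).re = (z₀ - w).re + (z - z₀).re := by simp
      rw [e]
      apply cosh_shift
      rw [mem_ball_iff_norm] at hz
      have := Complex.abs_re_le_norm (z - z₀)
      linarith
    have h4 := norm_cosh_le (z - w)
    have h5 := norm_sinh_le (z₀ - w)
    rw [norm_div, norm_neg, norm_pow]
    have hK : ‖K (z₀ - w)‖ = ‖Complex.sinh (z₀ - w)‖⁻¹ := by unfold K; rw [norm_inv]
    rw [hK]
    set C1 := Real.cosh (z - w).re with hC1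
    set C0 := Real.cosh (z₀ - w).re with hC0
    set S1 := ‖Complex.sinh (z - w)‖ with hS1
    set S0 := ‖Complex.sinh (z₀ - w)‖ with hS0
    have h6 : ‖Complex.cosh (z - w)‖ / S1 ^ 2 ≤ C1 / ((r / 2) ^ 2 / 5 * C1 ^ 2) := by
      apply div_le_div₀ hc1.le h4 (by positivity) h1
    have h7 : C1 / ((r / 2) ^ 2 / 5 * C1 ^ 2) = 20 / r ^ 2 * C1⁻¹ := by
      field_simp
      ring
    have h8 : C1⁻¹ ≤ 2 * S0⁻¹ := by
      have : 2 * S0⁻¹ = (S0 / 2)⁻¹ := by rw [inv_div]; ring
      rw [this]
      apply inv_anti₀ (by positivity)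
      linarith
    calc ‖Complex.cosh (z - w)‖ / S1 ^ 2 ≤ 20 / r ^ 2 * C1⁻¹ := by rw [← h7]; exact h6
      _ ≤ 20 / r ^ 2 * (2 * S0⁻¹) := by gcongr
      _ = 40 / r ^ 2 * S0⁻¹ := by ring
  · apply Integrable.const_mul
    exact ((integrable_K Ω hΩo.measurableSet hinj z₀).mono_measure
      (Measure.restrict_mono sdiff_subset le_rfl)).norm
  · rw [ae_restrict_iff' hms]
    apply Eventually.of_forall
    intro w hw z hz
    have h1 := lower_sinh (z - w) (r / 2) (by linarith) (by linarith)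
      (dist_poles Ω hinj z₀ r hball z hz w hw)
    have hc1 := Real.cosh_pos (z - w).re
    have hs1 : 0 < ‖Complex.sinh (z - w)‖ ^ 2 := lt_of_lt_of_le (by positivity) h1
    have hs : Complex.sinh (z - w) ≠ 0 := by
      intro h; rw [h, norm_zero] at hs1; norm_num at hs1
    exact (hasDerivAt_K (z - w) hs).comp_sub_const z w

include hr hr1 in
lemma G1_diff : DifferentiableAt ℂ (fun z => ∫ w in ball z₀ r, k3 (z - w)) z₀ := by
  have hcont : ContinuousOn (deriv k3) (ball 0 3) :=
    (k3_diff.deriv isOpen_ball).continuousOn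
  have hk3c : ContinuousOn k3 (ball 0 3) := k3_diff.continuousOn
  have hcomp : IsCompact (closedBall (0:ℂ) 2) := isCompact_closedBall 0 2
  have hsub : closedBall (0:ℂ) 2 ⊆ ball 0 3 := closedBall_subset_ball (by norm_num)
  obtain ⟨C, hC⟩ := hcomp.exists_bound_of_continuousOn (hcont.mono hsub)
  have hin : ∀ z ∈ ball z₀ (r / 2), ∀ w ∈ ball z₀ r, z - w ∈ closedBall (0:ℂ) 2 := by
    intro z hz w hw
    rw [mem_ball_iff_norm] at hz hw
    rw [mem_closedBall_zero_iff]
    calc ‖z - w‖ = ‖(z - z₀) - (w - z₀)‖ := by ring_nf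
      _ ≤ ‖z - z₀‖ + ‖w - z₀‖ := norm_sub_le _ _
      _ ≤ 2 := by linarith
  have hmap : ∀ z ∈ ball z₀ (r / 2), MapsTo (fun w => z - w) (ball z₀ r) (ball (0:ℂ) 3) :=
    fun z hz w hw => hsub (hin z hz w hw)
  have hz₀ : z₀ ∈ ball z₀ (r / 2) := mem_ball_self (by linarith)
  have key := hasDerivAt_integral_of_dominated_loc_of_deriv_le
    (𝕜 := ℂ) (μ := volume.restrict (ball z₀ r)) (F := fun z w => k3 (z - w))
    (F' := fun z w => deriv k3 (z - w))
    (x₀ := z₀) (s := ball z₀ (r / 2)) (bound := fun _ => C)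
    (ball_mem_nhds z₀ (by linarith)) ?_ ?_ ?_ ?_ ?_ ?_
  · exact key.2.differentiableAt
  · filter_upwards [ball_mem_nhds z₀ (show 0 < r / 2 by linarith)] with z hz
    apply ContinuousOn.aestronglyMeasurable _ measurableSet_ball
    exact hk3c.comp (by fun_prop) (hmap z hz)
  · obtain ⟨C', hC'⟩ := hcomp.exists_bound_of_continuousOn (hk3c.mono hsub)
    apply Integrable.mono' (g := fun _ => C')
    · exact integrableOn_const (by finiteness)
    · apply ContinuousOn.aestronglyMeasurable _ measurableSet_ball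
      exact hk3c.comp (by fun_prop) (hmap z₀ hz₀)
    · rw [ae_restrict_iff' measurableSet_ball]
      exact Eventually.of_forall fun w hw => hC' _ (hin z₀ hz₀ w hw)
  · apply ContinuousOn.aestronglyMeasurable _ measurableSet_ball
    exact hcont.comp (by fun_prop) (hmap z₀ hz₀)
  · rw [ae_restrict_iff' measurableSet_ball]
    exact Eventually.of_forall fun w hw z hz => hC _ (hin z hz w hw)
  · exact integrableOn_const (by finiteness)
  · rw [ae_restrict_iff' measurableSet_ball]
    apply Eventually.of_forall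
    intro w hw z hz
    have h1 : DifferentiableAt ℂ k3 (z - w) :=
      k3_diff.differentiableAt (isOpen_ball.mem_nhds (hmap z hz hw))
    exact h1.hasDerivAt.comp_sub_const z w

include hΩo hinj hr hr1 hball in
lemma decomp (z : ℂ) (hz : z ∈ ball z₀ (r / 2)) :
    starRingEnd ℂ z - T Ω z = starRingEnd ℂ z₀ - (Real.pi : ℂ)⁻¹ *
      ((∫ w in ball z₀ r, k3 (z - w)) + ∫ w in Ω \ ball z₀ r, K (z - w)) := by
  have hpi : (Real.pi : ℂ) ≠ 0 := by exact_mod_cast Real.pi_ne_zero
  have hint := integrable_K Ω hΩo.measurableSet hinj z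
  have h1 : ∫ w in Ω, K (z - w) = (∫ w in ball z₀ r, K (z - w)) +
      ∫ w in Ω \ ball z₀ r, K (z - w) := by
    have h := setIntegral_union (μ := volume) (f := fun w => K (z - w)) (s := ball z₀ r)
      (t := Ω \ ball z₀ r) disjoint_sdiff_right (hΩo.measurableSet.diff measurableSet_ball)
      (hint.mono_measure (Measure.restrict_mono hball le_rfl))
      (hint.mono_measure (Measure.restrict_mono sdiff_subset le_rfl))
    rw [union_sdiff_cancel hball] at h
    exact h
  have hzn : ‖z - z₀‖ < r / 2 := by rwa [mem_ball_iff_norm] at hz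
  -- the translate
  have hshift : ∫ w in ball z₀ r, (z - w)⁻¹ = Real.pi * starRingEnd ℂ (z - z₀) := by
    rw [← cauchy_disc (z - z₀) r (by linarith), ← integral_indicator measurableSet_ball,
      ← integral_indicator measurableSet_ball]
    rw [← integral_add_right_eq_self (fun w => (ball z₀ r).indicator (fun w => (z - w)⁻¹) w) z₀]
    congr 1
    ext w
    simp only [indicator, mem_ball_iff_norm, add_sub_cancel_right, sub_zero]
    split_ifs
    · congr 1; ring
    · rfl
  have hinvint : IntegrableOn (fun w => (z - w)⁻¹) (ball z₀ r) := by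
    have h := integrable_inv_ball (z - z₀) r
    rw [← integrable_indicator_iff measurableSet_ball] at h ⊢
    have h' := h.comp_sub_right z₀
    refine h'.congr (Eventually.of_forall fun w => ?_)
    simp only [indicator, mem_ball_iff_norm, sub_zero]
    split_ifs
    · congr 1; ring
    · rfl
  have hae : ∀ᵐ w : ℂ ∂(volume.restrict (ball z₀ r)), K (z - w) = (z - w)⁻¹ + k3 (z - w) := by
    rw [ae_restrict_iff' measurableSet_ball]
    filter_upwards [(countable_singleton z).ae_notMem volume] with w hw hwb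
    apply K_eq
    · intro h
      apply hw
      have : w = z := by linear_combination -h
      simp [this]
    · rw [mem_ball_iff_norm] at hwb
      calc ‖z - w‖ = ‖(z - z₀) - (w - z₀)‖ := by ring_nf
        _ ≤ ‖z - z₀‖ + ‖w - z₀‖ := norm_sub_le _ _
        _ < 3 := by linarith
  have hk3int : Integrable (fun w => k3 (z - w)) (volume.restrict (ball z₀ r)) := by
    have hK : Integrable (fun w => K (z - w)) (volume.restrict (ball z₀ r)) :=
      hint.mono_measure (Measure.restrict_mono hball le_rfl)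
    refine (hK.sub hinvint).congr ?_
    filter_upwards [hae] with w hw
    simp only [Pi.sub_apply]
    rw [hw]; ring
  have h2 : ∫ w in ball z₀ r, K (z - w) = Real.pi * starRingEnd ℂ (z - z₀) +
      ∫ w in ball z₀ r, k3 (z - w) := by
    rw [integral_congr_ae hae, integral_add hinvint hk3int, hshift]
  unfold T
  rw [h1, h2, map_sub]
  field_simp
  ring

include hΩo hinj hr hr1 hball in
lemma diffAt : DifferentiableAt ℂ (fun z => starRingEnd ℂ z - T Ω z) z₀ := by
  have h1 := G1_diff z₀ r hr hr1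
  have h2 := G2_diff Ω hΩo hinj z₀ r hr hr1 hball
  have h3 : DifferentiableAt ℂ (fun z => starRingEnd ℂ z₀ - (Real.pi : ℂ)⁻¹ *
      ((∫ w in ball z₀ r, k3 (z - w)) + ∫ w in Ω \ ball z₀ r, K (z - w))) z₀ :=
    ((h1.add h2).const_mul _).const_sub _
  apply h3.congr_of_eventuallyEq
  filter_upwards [ball_mem_nhds z₀ (show 0 < r / 2 by linarith)] with z hz
  exact decomp Ω hΩo hinj z₀ r hr hr1 hball z hz

end main

theorem holo (Ω : Set ℂ) (hΩo : IsOpen Ω)
    (hinj : ∀ w ∈ Ω, ∀ k : ℤ, (w + k * Real.pi * Complex.I) ∈ Ω → k = 0) :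
    DifferentiableOn ℂ (fun z => starRingEnd ℂ z - T Ω z) Ω := by
  intro z₀ hz₀
  obtain ⟨ε, hε, hball⟩ := Metric.isOpen_iff.mp hΩo z₀ hz₀
  apply DifferentiableAt.differentiableWithinAt
  apply diffAt Ω hΩo hinj z₀ (min ε 1) (lt_min hε one_pos) (min_le_right _ _)
  exact (ball_subset_ball (min_le_left _ _)).trans hball

end Pool.Agent.Work.MP_10bde7_an
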