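import Mathlib

set_option autoImplicit false

open MeasureTheory Set Filter Topology
open scoped ENNReal

namespace Pool.Agent.Work.MP_10bde7_an

noncomputable def K (u : ℂ) : ℂ := (Complex.sinh u)⁻¹

lemma sinh_re (u : ℂ) : (Complex.sinh u).re = Real.sinh u.re * Real.cos u.im := by
  conv_lhs => rw [← Complex.re_add_im u]
  rw [Complex.sinh_add, Complex.sinh_mul_I, Complex.cosh_mul_I]
  simp [← Complex.ofReal_sinh, ← Complex.ofReal_cosh, ← Complex.ofReal_sin, ← Complex.ofReal_cos]

lemma sinh_im (u : ℂ) : (Complex.sinh u).im = Real.cosh u.re * Real.sin u.im := by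
  conv_lhs => rw [← Complex.re_add_im u]
  rw [Complex.sinh_add, Complex.sinh_mul_I, Complex.cosh_mul_I]
  simp [← Complex.ofReal_sinh, ← Complex.ofReal_cosh, ← Complex.ofReal_sin, ← Complex.ofReal_cos]

lemma normSq_sinh (u : ℂ) :
    Complex.normSq (Complex.sinh u) = Real.sinh u.re ^ 2 + Real.sin u.im ^ 2 := by
  rw [Complex.normSq_apply, sinh_re, sinh_im]
  have h1 := Real.cosh_sq u.re
  have h2 := Real.sin_sq_add_cos_sq u.im
  have h3 : Real.cosh u.re ^ 2 = Real.sinh u.re ^ 2 + 1 := h1
  nlinarith [h3, h2, sq_nonneg (Real.sinh u.re), sq_nonneg (Real.sin u.im),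
    congrArg (fun t => t * Real.sin u.im ^ 2) h3, congrArg (fun t => t * Real.sinh u.re ^ 2) h2]

lemma normsq_sinh (u : ℂ) :
    ‖Complex.sinh u‖ ^ 2 = Real.sinh u.re ^ 2 + Real.sin u.im ^ 2 := by
  rw [← normSq_sinh, Complex.normSq_eq_norm_sq]

lemma K_im (u : ℂ) :
    (K u).im = - (Real.cosh u.re * Real.sin u.im) / (Real.sinh u.re ^ 2 + Real.sin u.im ^ 2) := by
  unfold K
  rw [Complex.inv_im, normSq_sinh, sinh_im]

lemma abs_K_im (u : ℂ) :
    |(K u).im| = Real.cosh u.re * |Real.sin u.im| / (Real.sinh u.re ^ 2 + |Real.sin u.im| ^ 2) := by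
  have h0 : 0 ≤ Real.sinh u.re ^ 2 + Real.sin u.im ^ 2 := by positivity
  rw [K_im, abs_div, abs_neg, abs_mul, abs_of_pos (Real.cosh_pos _), sq_abs, abs_of_nonneg h0]

lemma norm_K_sq (u : ℂ) :
    ‖K u‖ ^ 2 = (Real.sinh u.re ^ 2 + Real.sin u.im ^ 2)⁻¹ := by
  unfold K
  rw [norm_inv, inv_pow, normsq_sinh]

lemma measurable_K : Measurable K := Complex.measurable_sinh.inv

lemma lint_x (a : ℝ) (ha : 0 < a) :
    ∫⁻ x : ℝ, ENNReal.ofReal (Real.cosh x * a / (Real.sinh x ^ 2 + a ^ 2)) ≤
      ENNReal.ofReal Real.pi := by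
  have hcov : AECover (volume : Measure ℝ) atTop (fun n : ℝ => Ioc (-n) n) :=
    aecover_Ioc tendsto_neg_atTop_atBot tendsto_id
  have hcont : Continuous (fun x : ℝ => Real.cosh x * a / (Real.sinh x ^ 2 + a ^ 2)) := by
    apply Continuous.div
    · exact Real.continuous_cosh.mul continuous_const
    · exact (Real.continuous_sinh.pow 2).add continuous_const
    · intro x; positivity
  have ht := hcov.lintegral_tendsto_of_countably_generated
    (hcont.measurable.ennreal_ofReal.aemeasurable)
  refine le_of_tendsto ht ((eventually_ge_atTop 0).mono fun n hn => ?_)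
  rw [← ofReal_integral_eq_lintegral_ofReal]
  · apply ENNReal.ofReal_le_ofReal
    rw [← intervalIntegral.integral_of_le (by linarith)]
    have hd : ∀ x ∈ uIcc (-n) n, HasDerivAt (fun x => Real.arctan (Real.sinh x / a))
        (Real.cosh x * a / (Real.sinh x ^ 2 + a ^ 2)) x := by
      intro x _
      have h1 : HasDerivAt (fun x => Real.sinh x / a) (Real.cosh x / a) x :=
        (Real.hasDerivAt_sinh x).div_const a
      have h2 := h1.arctan
      convert h2 using 1
      field_simp
      ring
    rw [intervalIntegral.integral_eq_sub_of_hasDerivAt hd (hcont.intervalIntegrable _ _)]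
    have h3 := Real.arctan_lt_pi_div_two (Real.sinh n / a)
    have h4 := Real.neg_pi_div_two_lt_arctan (Real.sinh (-n) / a)
    linarith
  · exact (hcont.integrableOn_Icc).mono_set Ioc_subset_Icc_self
  · exact Eventually.of_forall fun x => by
      have := Real.cosh_pos x
      positivity

/-- one-dimensional periodic packing -/
lemma lint_packing (A : Set ℝ) (hA : MeasurableSet A)
    (hinj : ∀ y ∈ A, ∀ k : ℤ, (y + k * Real.pi) ∈ A → k = 0)
    (h : ℝ → ℝ≥0∞) (hh : Measurable h) (hper : ∀ y (k : ℤ), h (y + k * Real.pi) = h y) :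
    ∫⁻ y in A, h y ≤ ∫⁻ y in Ioc 0 Real.pi, h y := by
  have hfd := isAddFundamentalDomain_Ioc Real.pi_pos 0 (volume : Measure ℝ)
  rw [← lintegral_indicator hA, hfd.lintegral_eq_tsum'']
  rw [zero_add]
  rw [← lintegral_tsum]
  · apply lintegral_mono
    intro y
    have hval : ∀ g : AddSubgroup.zmultiples Real.pi, (A.indicator h) (g +ᵥ y)
        = A.indicator (fun _ => h y) (g +ᵥ y) := by
      rintro ⟨g, hg⟩
      obtain ⟨k, hk⟩ := AddSubgroup.mem_zmultiples_iff.mp hg
      have e : ((⟨g, hg⟩ : AddSubgroup.zmultiples Real.pi) +ᵥ y) = y + k * Real.pi := by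
        rw [AddSubgroup.vadd_def, vadd_eq_add]
        simp only
        rw [← hk]; simp [add_comm]
      rw [e]
      simp only [indicator]
      split_ifs
      · rw [hper]
      · rfl
    show ∑' g : AddSubgroup.zmultiples Real.pi, A.indicator h (g +ᵥ y) ≤ h y
    by_cases hex : ∃ g : AddSubgroup.zmultiples Real.pi, g +ᵥ y ∈ A
    · obtain ⟨g₀, hg₀⟩ := hex
      rw [tsum_eq_single g₀]
      · rw [hval, indicator_of_mem hg₀]
      · intro g hg
        rw [hval, indicator_of_notMem]
        intro hmem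
        apply hg
        obtain ⟨g, hg'⟩ := g
        obtain ⟨g₀, hg₀'⟩ := g₀
        obtain ⟨k, hk⟩ := AddSubgroup.mem_zmultiples_iff.mp hg'
        obtain ⟨k₀, hk₀⟩ := AddSubgroup.mem_zmultiples_iff.mp hg₀'
        rw [AddSubgroup.vadd_def, vadd_eq_add] at hmem hg₀
        simp only at hmem hg₀
        have := hinj _ hg₀ (k - k₀) (by
          have e : g₀ + y + ((k - k₀ : ℤ) : ℝ) * Real.pi = g + y := by
            rw [← hk, ← hk₀]; push_cast; simp; ring
          rw [e]; exact hmem)
        have hkk : k = k₀ := by omega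
        apply Subtype.ext
        simp only
        rw [← hk, ← hk₀, hkk]
    · push Not at hex
      have : ∀ g : AddSubgroup.zmultiples Real.pi, (A.indicator h) (g +ᵥ y) = 0 := fun g => by
        rw [indicator_of_notMem (hex g)]
      simp [this]
  · intro g
    apply Measurable.aemeasurable
    apply (hh.indicator hA).comp
    exact measurable_const_vadd g

end Pool.Agent.Work.MP_10bde7_an
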